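import Pool.Agent.H543.DG.Fin1
import Pool.Agent.H543.DG.Fin3
import Pool.Graph.R_seed8.W366.DC.SFX
import Pool.Graph.R_seed8.Y445.JRB.Buch

/-!
# The numbers `n ^ 2 + a` in short intervals, for every `a`

Let `-a` be a nonsquare.  For the numbers `n ^ 2 + a` with `X < n ≤ X + H`, in all intervals with
`X ^ (1 - δ) ≤ H ≤ X`, we prove: equidistribution in bilinear form for the moduli up to `X ^ θ`,
`θ < 13 / 12`; the theorem of Jurkat and Richert with every such level; the prime values are at most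
`48 / 13 + ε` times the number `(h / 2) H / log X` of the conjecture; `≫ H / log X` of the values have
no prime factor `≤ n ^ η`, for every `η < 13 / 24`; and `≫ H / log X` of the values have at most two
prime factors.
-/

set_option autoImplicit false

namespace Pool.Agent.Results.MP_391708_nt.BeyondLevelOneShort

open Filter Finset Topology

/-- The functions of the linear sieve (Jurkat and Richert): the continuous solutions on `[1, ∞)` of
`s F(s) = 2 e ^ γ` for `1 ≤ s ≤ 3`, `f(s) = 0` for `1 ≤ s ≤ 2`, `(s F(s))' = f(s - 1)` for `s ≥ 3`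
and `(s f(s))' = F(s - 1)` for `s ≥ 2`. -/
structure LinearSieve (F f : ℝ → ℝ) : Prop where
  continuous_upper : ContinuousOn F (Set.Ici 1)
  continuous_lower : ContinuousOn f (Set.Ici 1)
  start_upper : ∀ s : ℝ, 1 ≤ s → s ≤ 3 → s * F s = 2 * Real.exp Real.eulerMascheroniConstant
  start_lower : ∀ s : ℝ, 1 ≤ s → s ≤ 2 → f s = 0
  upper : ∀ s : ℝ, 3 ≤ s →
    s * F s = 2 * Real.exp Real.eulerMascheroniConstant + ∫ x in (3 : ℝ)..s, f (x - 1)
  lower : ∀ s : ℝ, 2 ≤ s → s * f s = ∫ x in (2 : ℝ)..s, F (x - 1)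

/-- The proportion `ρ(d) / d` of the residues `m` modulo `d` with `d ∣ m ^ 2 + a`. -/
noncomputable def prob (a : ℤ) (d : ℕ) : ℝ :=
  (((Finset.range d).filter (fun m : ℕ => (d : ℤ) ∣ (m : ℤ) ^ 2 + a)).card : ℝ) / d

/-- The sieve density of `n ^ 2 + a`: the product of `1 - ρ(p) / p` over the primes `p < z`. -/
noncomputable def density (a : ℤ) (z : ℝ) : ℝ :=
  ∏ p ∈ (Finset.range ⌈z⌉₊).filter Nat.Prime, (1 - prob a p)

/-- The number of the `n` in `(X, X + H]` with `d ∣ n ^ 2 + a`. -/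
def divCount (a : ℤ) (d X H : ℕ) : ℕ :=
  ((Finset.Ioc X (X + H)).filter (fun n : ℕ => (d : ℤ) ∣ (n : ℤ) ^ 2 + a)).card

open Classical in
/-- The number of the `n` in `(X, X + H]` such that `n ^ 2 + a` has no prime factor below `z`. -/
noncomputable def roughCount (a : ℤ) (z : ℝ) (X H : ℕ) : ℕ :=
  ((Finset.Ioc X (X + H)).filter
    (fun n : ℕ => ∀ p : ℕ, p.Prime → (p : ℤ) ∣ (n : ℤ) ^ 2 + a → z ≤ p)).card

/-- The number of the `n` in `(X, X + H]` such that `|n ^ 2 + a|` is prime. -/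
def primeCount (a : ℤ) (X H : ℕ) : ℕ :=
  ((Finset.Ioc X (X + H)).filter (fun n : ℕ => ((n : ℤ) ^ 2 + a).natAbs.Prime)).card

/-- `P X H` holds for all large `X` and all `H` with `X ^ (1 - δ) ≤ H ≤ X`, for some `δ > 0`. -/
def InShortIntervals (P : ℕ → ℕ → Prop) : Prop :=
  ∃ δ : ℝ, 0 < δ ∧ ∀ᶠ X : ℕ in atTop, ∀ H : ℕ, (X : ℝ) ^ (1 - δ) ≤ H → H ≤ X → P X H

open Classical in
/-- **Equidistribution in bilinear form**, with the exponents `1 - ε` and `1 / 12 - ε`: for all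
coefficients `u m` and `v n` of absolute value at most one, `u` supported on squarefree numbers
`≤ X ^ (1 - ε)` and `v` on squarefree numbers `≤ X ^ (1 / 12 - ε)` without prime factors
`< X ^ r`, the moduli `m n` with coprime `m` and `n` together give the expected count in
`(X, X + H]`, up to `H X ^ (- κ)`. -/
def BilinearLevel (a : ℤ) : Prop :=
  ∀ ε r : ℝ, 0 < ε → 0 < r → ∃ κ : ℝ, 0 < κ ∧ InShortIntervals fun X H =>
    ∀ M N : ℕ, (M : ℝ) ≤ (X : ℝ) ^ (1 - ε) → (N : ℝ) ≤ (X : ℝ) ^ (1 / 12 - ε) →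
    ∀ u v : ℕ → ℝ, (∀ m, |u m| ≤ 1) → (∀ m, u m ≠ 0 → Squarefree m) →
      (∀ n, |v n| ≤ 1) → (∀ n, v n ≠ 0 → Squarefree n ∧ ∀ p ∈ n.primeFactors, (X : ℝ) ^ r ≤ p) →
      |∑ m ∈ Finset.Icc 1 M, ∑ n ∈ (Finset.Icc 1 N).filter (fun n => Nat.Coprime m n),
        u m * v n * ((divCount a (m * n) X H : ℝ) - H * prob a (m * n))| ≤ H * (X : ℝ) ^ (-κ)

theorem density_eq (a : ℤ) (z : ℝ) : density a z = Pool.Agent.Y882.JR.dens a z := rfl

theorem rough_eq (a : ℤ) (z : ℝ) (X H : ℕ) :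
    roughCount a z X H = Pool.Agent.Y882.JR.rough a z X H := rfl

theorem divCount_eq (a : ℤ) (d X H : ℕ) : (divCount a d X H : ℝ) = Pool.Agent.H543.DG.cI a X H d := by
  rw [Pool.Agent.H543.DG.cI_nat2]
  unfold divCount
  congr 2
  apply filter_congr
  intro n _
  rw [Pool.Agent.H543.DG.dvd_NN]

theorem bilinear {a : ℤ} (ha : ¬ IsSquare (-a)) : BilinearLevel a := by
  classical
  intro ε r hε hr
  obtain ⟨D⟩ := Pool.Agent.H543.DG.dec_exists ha
  set ε' : ℝ := min ε (1 / 100) with hε'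
  have h1 : 0 < ε' := lt_min hε (by norm_num)
  set κ : ℝ := min (ε' / 200) (r / 100) with hκ
  have h2 : 0 < κ := lt_min (by positivity) (by positivity)
  have h3 : κ ≤ ε' / 200 := min_le_left _ _
  have h4 : κ ≤ r / 100 := min_le_right _ _
  obtain ⟨X0, hX0⟩ := Pool.Agent.H543.DG.bil Pool.Agent.Y346.PA.kl D ε' r κ h2 (by linarith)
    (by linarith) (min_le_right _ _)
  refine ⟨κ / 2, by positivity, κ, h2, ?_⟩
  filter_upwards [eventually_ge_atTop X0, eventually_ge_atTop 1] with X hX hX1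
  intro H hH1 hH2 M N hM hN u v hu husq hv hvs
  have hX1r : (1 : ℝ) ≤ X := by exact_mod_cast hX1
  have h5 : ε' ≤ ε := min_le_left _ _
  have h6 := hX0 X hX H hH1 hH2 N M
    (hN.trans (Real.rpow_le_rpow_of_exponent_le hX1r (by linarith)))
    (hM.trans (Real.rpow_le_rpow_of_exponent_le hX1r (by linarith))) u v hu hv husq
  refine le_trans (le_of_eq ?_) h6
  congr 1
  apply sum_congr rfl
  intro m _
  have h8 : ∑ n ∈ (Finset.Icc 1 N).filter (fun n => Nat.Coprime m n),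
      u m * v n * ((divCount a (m * n) X H : ℝ) - H * prob a (m * n)) =
      ∑ n ∈ (Finset.Icc 1 N).filter (fun n => Nat.Coprime m n),
        u m * v n * (Pool.Agent.H543.DG.cI a X H (m * n) - H * Pool.Agent.H543.DG.gd a (m * n)) := by
    apply sum_congr rfl
    intro n _
    rw [divCount_eq]
    rfl
  rw [h8]
  symm
  apply sum_subset
  · intro n hn
    unfold Pool.Agent.H543.DG.Bs at hn
    rw [mem_filter, mem_filter] at hn
    rw [mem_filter]
    exact ⟨hn.1.1, hn.2⟩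
  · intro n hn hn2
    rw [mem_filter] at hn
    have h7 : v n = 0 := by
      by_contra h8
      apply hn2
      rw [mem_filter]
      unfold Pool.Agent.H543.DG.Bs
      rw [mem_filter]
      exact ⟨⟨hn.1, hvs n h8⟩, hn.2⟩
    rw [h7]
    ring

theorem limit {a : ℤ} (C : ℝ) (hC1 : Tendsto (fun N : ℕ => Pool.Agent.Y882.JR.dens a N /
    ∏ p ∈ (Finset.range N).filter Nat.Prime, (1 - 1 / (p : ℝ))) atTop (𝓝 C)) :
    Tendsto (fun x : ℕ => ∏ w ∈ (Finset.range (x + 1)).filter (fun w => w.Prime ∧ w ≠ 2),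
      (1 - (jacobiSym (-a) w : ℝ) / ((w : ℝ) - 1))) atTop (𝓝 C) := by
  have h1 : Tendsto (Pool.Agent.Y781.JR.RR a) atTop (𝓝 C) := by
    apply hC1.congr
    intro N
    rw [Pool.Agent.Y781.JR.dens_eq, Nat.ceil_natCast]
    change Pool.Agent.Y781.JR.GG N * Pool.Agent.Y781.JR.RR a N / Pool.Agent.Y781.JR.GG N = _
    rw [mul_div_cancel_left₀ _ (Pool.Agent.Y781.JR.GG_pos N).ne']
  exact (tendsto_add_atTop_iff_nat 1).2 h1

open Classical in
/-- **The numbers `n ^ 2 + a` in short intervals, beyond the level one.** -/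
theorem result :
    ∃ F f : ℝ → ℝ, LinearSieve F f ∧ (∀ s : ℝ, 1 ≤ s → 1 ≤ F s ∧ f s ≤ 1) ∧
      (∀ s : ℝ, 2 < s → 0 < f s) ∧ Tendsto F atTop (𝓝 1) ∧ Tendsto f atTop (𝓝 1) ∧
      ∀ a : ℤ, ¬ IsSquare (-a) → BilinearLevel a ∧ ∃ h : ℝ, 0 < h ∧
        Tendsto (fun x : ℕ => ∏ w ∈ (Finset.range (x + 1)).filter (fun w => w.Prime ∧ w ≠ 2),
          (1 - (jacobiSym (-a) w : ℝ) / ((w : ℝ) - 1))) atTop (𝓝 h) ∧
        Tendsto (fun z : ℝ => density a z * Real.log z) atTop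
          (𝓝 (h * Real.exp (-Real.eulerMascheroniConstant))) ∧
        (∀ θ s ε : ℝ, 0 < θ → θ < 13 / 12 → 1 ≤ s → 0 < ε → InShortIntervals fun X H =>
          (f s - ε) * (H * density a ((X : ℝ) ^ (θ / s))) ≤
            (roughCount a ((X : ℝ) ^ (θ / s)) X H : ℝ) ∧
          (roughCount a ((X : ℝ) ^ (θ / s)) X H : ℝ) ≤
            (F s + ε) * (H * density a ((X : ℝ) ^ (θ / s)))) ∧
        (∀ ε : ℝ, 0 < ε → InShortIntervals fun X H =>
          (primeCount a X H : ℝ) ≤ (48 / 13 + ε) * (h / 2 * (H / Real.log X))) ∧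
        (∀ η : ℝ, 0 < η → η < 13 / 24 → ∃ c : ℝ, 0 < c ∧ InShortIntervals fun X H =>
          c * (H / Real.log X) ≤ (((Finset.Ioc X (X + H)).filter (fun n : ℕ =>
            ∀ p : ℕ, p.Prime → p ∣ ((n : ℤ) ^ 2 + a).natAbs → (n : ℝ) ^ η < p)).card : ℝ)) ∧
        ∃ c : ℝ, 0 < c ∧ InShortIntervals fun X H =>
          c * (H / Real.log X) ≤ (((Finset.Ioc X (X + H)).filter (fun n : ℕ =>
            ((n : ℤ) ^ 2 + a).natAbs.primeFactorsList.length ≤ 2 ∧
            ∀ p : ℕ, p.Prime → p ∣ ((n : ℤ) ^ 2 + a).natAbs →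
              (n : ℝ) ^ (23 / 100 : ℝ) ≤ p)).card : ℝ) := by
  obtain ⟨A0, F, f, hSF⟩ := Pool.Agent.W366.DC.SFX
  have hA : A0 = 2 * Real.exp Real.eulerMascheroniConstant := Pool.Agent.Y882.JR.A0_eq Pool.Agent.Y445.JRB.t hSF
  refine ⟨F, f, ?_, fun s hs => ⟨hSF.F1 s hs, hSF.f1 s hs⟩,
    fun s hs => Pool.Agent.H543.DG.f_low hSF s hs, Pool.Agent.Y882.JR.F_lim hSF,
    Pool.Agent.Y882.JR.f_lim hSF, ?_⟩
  · constructor
    · exact hSF.cF
    · exact hSF.cf
    · intro s h1 h3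
      rw [hSF.F3 s h1 h3, ← hA]
      have : s ≠ 0 := by linarith
      field_simp
    · exact hSF.f2
    · intro s hs
      rw [← hA]
      exact hSF.eF s hs
    · exact hSF.ef
  · intro a ha
    obtain ⟨C, hC0, hC1, hC2⟩ := Pool.Agent.Y781.JR.t a ha
    refine ⟨bilinear ha, C, hC0, limit C hC1, hC2, ?_, ?_, ?_, ?_⟩
    · intro θ s ε h1 h2 h3 h4
      exact Pool.Agent.H543.DG.lin_all Pool.Agent.Y346.PA.kl ha A0 F f hSF θ s h1 h2 h3 ε h4
    · intro ε hε
      obtain ⟨δ, hδ, h1⟩ := Pool.Agent.H543.DG.prime_up Pool.Agent.Y346.PA.kl ha A0 F f hSF hA C hC0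
        hC2 (ε * (C / 2)) (by positivity)
      refine ⟨δ, hδ, ?_⟩
      filter_upwards [h1] with X h2
      intro H h3 h4
      refine (h2 H h3 h4).trans (le_of_eq ?_)
      ring
    · intro η h1 h2
      obtain ⟨δ, hδ, c, hc, h3⟩ := Pool.Agent.H543.DG.rough_low Pool.Agent.Y346.PA.kl ha A0 F f hSF
        (C * Real.exp (-Real.eulerMascheroniConstant)) (by positivity) hC2 η h1 h2
      refine ⟨c, hc, δ, hδ, ?_⟩
      filter_upwards [h3] with X h4
      intro H h5 h6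
      obtain ⟨S, hS1, hS2, hS3⟩ := h4 H h5 h6
      refine hS2.trans ?_
      have h7 : S ⊆ (Finset.Ioc X (X + H)).filter (fun n : ℕ =>
          ∀ p : ℕ, p.Prime → p ∣ ((n : ℤ) ^ 2 + a).natAbs → (n : ℝ) ^ η < p) := by
        intro n hn
        rw [mem_filter]
        exact ⟨hS1 hn, hS3 n hn⟩
      exact_mod_cast card_le_card h7
    · obtain ⟨δ, c, hδ, hc, X0, h1⟩ := Pool.Agent.H543.DG.p2_short Pool.Agent.Y346.PA.kl ha
      refine ⟨c, hc, δ, hδ, ?_⟩
      filter_upwards [eventually_ge_atTop X0] with X hX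
      intro H h2 h3
      have h4 := h1 X hX H h2 h3
      rw [← mul_div_assoc]
      exact h4

end Pool.Agent.Results.MP_391708_nt.BeyondLevelOneShort
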