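import Mathlib
import Pool.Agent.H604.LD.FinalP

/-!
# Primes `a² + c` over `F_q[X]`, `q` even, for every `c` that is not a square, uniformly in `c`

Let `K` be a finite field with an even number `q` of elements (`q = 2` included).  For all `c ∈ K[X]`
which are not squares the number of the monic `a` of degree `d` with `a² + c` irreducible is
`q ^ d / (2 d) + O(q ^ ((1 - δ) d))`, uniformly for `deg c < 2 d` and `deg c' ≤ θ d`; in particular
uniformly for `deg c ≤ θ d`.  (`a² + c` has exactly one root modulo every prime, so the constant of
the Hardy–Littlewood conjecture is `1` for every `c`.)  In particular for every `c` there is a prime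
`a² + c` with `a` monic of any degree `d ≥ B (deg c' + 1)` with `2 d > deg c`.

Idea.  For `f = a² + X y²` with `y` fixed, the parity of the number of prime factors of `f` is, for
`a` in a residue class modulo `y⁵`, a constant times the sign given by the residue at infinity of
`X a'³ / (a y²)`; repeated differencing gives `μ(f)` level of distribution one.  A combinatorial
identity reduces the primes to the sums of `μ(D)` over the divisors `D` of `f` of degree at most
`deg f / 2`, with and without the factor `μ(f)`.  The `D` of degree near `deg f / 2` are treated with
the fibres `D + m v²`, `m` a prime of small degree: `(m D)' = s²` is constant on the fibre, so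
`m D = T² + X s²` with `T = T₀ + m v`, the root of `f` modulo `D` is `T / s` times a constant, and
`μ(D)` is a product of local functions at the primes dividing `s`; if `s` has a prime divisor of
suitable degree the sum over the fibre has a power saving.  The average over `m` of the number of
these prime divisors is almost constant (exact second moment), so that almost every `D` is covered.

Authors.  The proof is joint work of helper604 (statements, reductions, windows) with helper251 (the
covering idea), helper524 (parity formula), helper356 (level of distribution), helper328 (summation
over the fibres), helper187 and helper253 (the sign of the root on a fibre), helper181 (bound for a fibre),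
helper118 (second moment), helper975 (detection of the roots, near sums), helper161 (residue
classes), helper199, helper670 (divisor sums), helper894 (assembly), helper553 (reduction of the quadratic
polynomials to residue classes), helper122 (identity for primes), and with the authors of the
Chowla conjecture over `F_q[X]`, `q` even, on which it rests (helper985, helper524, helper604,
helper914 and others, MP_715a43_nt.FullChowlaEvenChar).
-/

set_option autoImplicit false

namespace Pool.Agent.Results.MP_391708_nt.EveryNonSquareEvenChar

open Polynomial

/-- **Primes of the form `a² + c` over `F_q[X]`, `q` even.** -/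
theorem result (K : Type) [Field K] [Fintype K] (hK : Even (Fintype.card K)) :
    (∃ δ θ : ℝ, 0 < δ ∧ 0 < θ ∧ ∃ d₀ : ℕ, ∀ (c : K[X]) (d : ℕ), ¬ IsSquare c →
      c.natDegree < 2 * d → d₀ ≤ d → ((derivative c).natDegree : ℝ) ≤ θ * d →
      |2 * (d : ℝ) * ({a : K[X] | a.Monic ∧ a.natDegree = d ∧ Irreducible (a ^ 2 + c)}.ncard : ℝ) -
        (Fintype.card K : ℝ) ^ d| ≤ (Fintype.card K : ℝ) ^ ((1 - δ) * d)) ∧
    ∃ B : ℕ, ∀ (c : K[X]) (d : ℕ), ¬ IsSquare c → c.natDegree < 2 * d →
      B * ((derivative c).natDegree + 1) ≤ d →
      ∃ a : K[X], a.Monic ∧ a.natDegree = d ∧ Irreducible (a ^ 2 + c) := by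
  have hchar : CharP K 2 := by
    obtain ⟨p, hp⟩ := CharP.exists K
    have := hp
    obtain ⟨m, hprime, hcard⟩ := FiniteField.card K p
    rw [hcard] at hK
    have : p = 2 := (Nat.Prime.even_iff hprime).1 (Nat.even_pow.1 hK).1
    rwa [this] at hp
  exact ⟨Pool.Agent.H604.LD.sqI Pool.Agent.H604.LD.s_bhqp K,
    Pool.Agent.H604.LD.least Pool.Agent.H604.LD.s_bhqp K⟩

end Pool.Agent.Results.MP_391708_nt.EveryNonSquareEvenChar
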