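import Pool.Agent.H561.HO.W8

set_option autoImplicit false

/-! Primes `|n ^ 2 + a|` with `n` in a short window `(m, m + y]`, `y` only a little larger than `√m`, for almost every `a`:
the number predicted by Hardy and Littlewood. -/

namespace Pool.Agent.Results.MP_391708_nt.ShortWindowsAlmostAll

open Finset

/-- the partial products of `h_a` -/
noncomputable def partialH (a : ℤ) (z : ℕ) : ℝ :=
  ∏ w ∈ (Icc 3 z).filter Nat.Prime, (1 - (jacobiSym (-a) w : ℝ) / (w - 1))

/-- the number of the integers `n` of `(u, v]` for which `|n ^ 2 + a|` is prime -/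
noncomputable def count (a : ℤ) (u v : ℝ) : ℕ :=
  ((Ioc ⌊u⌋₊ ⌊v⌋₊).filter (fun n : ℕ => ((n : ℤ) ^ 2 + a).natAbs.Prime)).card

/-- the constant `h_a` exists and is positive, and the number of the `n` of `(m + u, m + v]` with `|n ^ 2 + a|` prime is
`h_a (v - u) / log |a|` up to a relative error `ε`, for all `u, v ≥ 0` with `v ≥ √m (log |a|) ^ B`,
`v (m + v) ≥ |a| ^ (1 / 4 + δ)`, `(m + v) ^ 2 (log |a|) ^ B ≤ |a|`, `v - u ≥ v / (log |a|) ^ W` -/
def Holds (δ ε : ℝ) (W B m : ℕ) (a : ℤ) : Prop :=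
  ∃ h : ℝ, 0 < h ∧ Filter.Tendsto (partialH a) Filter.atTop (nhds h) ∧
    ∀ u v : ℝ, 0 ≤ u → √(m : ℝ) * Real.log a.natAbs ^ B ≤ v → (a.natAbs : ℝ) ^ (1 / 4 + δ) ≤ v * (m + v) →
      (m + v) ^ 2 * Real.log a.natAbs ^ B ≤ a.natAbs → v / Real.log a.natAbs ^ W ≤ v - u →
      |(count a (m + u) (m + v) : ℝ) - h * (v - u) / Real.log a.natAbs| ≤ ε * (h * (v - u) / Real.log a.natAbs)

open Classical in
/-- for every starting point `m ≥ 1` the formula holds for all but `O(X / (log X) ^ A)` of the `a` with `|a| ≤ X` that are not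
of the form `-k ^ 2`, uniformly in `m` -/
theorem result (W A : ℕ) (δ ε : ℝ) (hδ : 0 < δ) (hε : 0 < ε) :
    ∃ B X₀ : ℕ, ∀ X : ℕ, X₀ ≤ X → ∀ m : ℕ, 1 ≤ m →
    (((Icc (-(X : ℤ)) X).filter (fun a : ℤ => ¬ IsSquare (-a) ∧ ¬ Holds δ ε W B m a)).card : ℝ) ≤ X / Real.log X ^ A := by
  obtain ⟨D, X0, h⟩ := Pool.Agent.H561.HO.quad_win 1 0 one_pos W A δ ε hδ hε
  refine ⟨D, X0, fun X hX m hm => ?_⟩
  refine le_trans ?_ (h X hX m (by simpa using hm))
  have hsub : (Icc (-(X : ℤ)) X).filter (fun a : ℤ => ¬ IsSquare (-a) ∧ ¬ Holds δ ε W D m a) ⊆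
      (Icc (-(X : ℤ)) X).filter (fun c : ℤ => c ≠ 0 ∧ Pool.Agent.H561.PG.LS false 1 0 c ∧
        ¬ Pool.Agent.H561.HO.HoldM 1 0 δ ε W D m c) := by
    intro a ha
    rw [mem_filter] at ha ⊢
    obtain ⟨h1, hsq, hn⟩ := ha
    have hg' : ∀ p : ℕ, p.Prime → (p : ℤ) ∣ 1 → (p : ℤ) ∣ 0 → ¬ (p : ℤ) ∣ a := by
      intro p hp hpa _ _
      have e3 : p ∣ 1 := by exact_mod_cast hpa
      exact hp.one_lt.ne' (Nat.dvd_one.1 e3)
    have h2 : ¬ (Even ((1 : ℤ) + 0) ∧ Even a) := by
      rintro ⟨⟨k, hk⟩, _⟩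
      omega
    refine ⟨h1, ?_, Pool.Agent.H561.PG.LS_adm hg' h2, ?_⟩
    · intro ha0
      apply hsq
      rw [ha0]
      exact ⟨0, by ring⟩
    · rintro ⟨S, g1, g2, g3⟩
      apply hn
      refine ⟨S, g1, ?_, ?_⟩
      · refine g2.congr' ?_
        filter_upwards [Filter.eventually_ge_atTop 2] with z hz
        rw [Pool.Agent.H561.PG.St_cf hg' h2 hz]
        unfold Pool.Agent.R460.SC.cf partialH
        have e1 : Odd ((1 : ℤ) + 0) := by decide
        rw [if_pos e1]
        have e2 : (Icc 3 z).filter (fun p : ℕ => p.Prime ∧ (p : ℤ) ∣ 1 ∧ (p : ℤ) ∣ 0) = ∅ := by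
          apply filter_eq_empty_iff.2
          rintro p _ ⟨hp, hpa, _⟩
          have e3 : p ∣ 1 := by exact_mod_cast hpa
          exact hp.one_lt.ne' (Nat.dvd_one.1 e3)
        rw [e2, prod_empty]
        have e4 : (Icc 3 z).filter (fun p : ℕ => p.Prime ∧ ¬ (p : ℤ) ∣ 1) = (Icc 3 z).filter Nat.Prime := by
          apply filter_congr
          intro p _
          constructor
          · exact fun h => h.1
          · intro hp
            refine ⟨hp, fun hpa => ?_⟩
            have e3 : p ∣ 1 := by exact_mod_cast hpa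
            exact hp.one_lt.ne' (Nat.dvd_one.1 e3)
        rw [e4]
        have e5 : ∀ T : ℝ, 2 * (1 / 2 * 1 * T) = T := fun T => by ring
        rw [e5]
        apply prod_congr rfl
        intro p hp
        rw [mem_filter, mem_Icc] at hp
        have hodd : p % 2 = 1 := by
          rcases hp.2.eq_two_or_odd with h | h
          · omega
          · exact h
        have hj : jacobiSym (0 ^ 2 - 4 * 1 * a) p = jacobiSym (-a) p := by
          have e : (0 ^ 2 - 4 * 1 * a : ℤ) = 2 ^ 2 * (-a) := by ring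
          rw [e, jacobiSym.mul_left, jacobiSym.sq_one', one_mul]
          have : Nat.Coprime 2 p := by
            rw [Nat.coprime_two_left]
            exact Nat.odd_iff.2 hodd
          exact_mod_cast this
        rw [hj]
      · intro u v hu hv hvs hvD hvu
        have g5 := g3 u v hu hv hvs hvD hvu
        have e2 : Pool.Agent.H561.PG.cntq false 1 0 a (m + u) (m + v) = count a (m + u) (m + v) := by
          unfold Pool.Agent.H561.PG.cntq count
          simp
        rw [e2] at g5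
        exact g5
  exact_mod_cast card_le_card hsub

end Pool.Agent.Results.MP_391708_nt.ShortWindowsAlmostAll
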