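import Mathlib
import Pool.Agent.H568.Bo
import Pool.Agent.H568.LB.LoT
import Pool.Agent.H568.PH.Fin

/-!
# The primes `n² + a` for almost all `|a| ≤ A`: between `1/2` and `5/3` of the expected number for `N^(2/3+ε) ≤ A ≤ N`, and at least `1/10` for `N^(5/8+ε) ≤ A ≤ N`

For every `A` with `N^(5/8+ε) ≤ A ≤ N` and almost all the integers `a` with `|a| ≤ A`, of both signs, the number of
the primes `|n² + a|`, `n ≤ N`, is at least `1/10 - η` times the number which Hardy and Littlewood predict, with the constant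
`h_a` of the problem; for `A ≥ N^(2/3+ε)` it is at least `1/2 - η` times and at most `5/3 + η` times this number. The same
holds in all intervals `u < n ≤ v ≤ N`. So almost all `a` have primes `|n² + a|` in the right order for all `n` up to
`|a|^(8/5 - ε)`. The upper bound is smaller than the factor `2` of the parity barrier. (For the asymptotic formula the
library needs `A ≥ N^(5/6 + ε)`, and for a lower bound, with the factor `3/4` and for `a > 0`, it has `A ≥ N^(7/10 + ε)`.)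
Moreover, for `A ≥ N^(1/2+ε)` a positive proportion of the `1 ≤ a ≤ A`, and of the `-A ≤ a ≤ -1`, have at least `κ N / log N`
primes `|n² + a|`, `n ≤ N`.

Proof. The theorems `conL`, `conUp`, `con58` (`Pool.Agent.H568`; also used for the averages over pairs `(b, c)` in
`MP_a17b09_nt.HalfBeyondHeight`) for the polynomials `n² + b n + c`, `b² ≤ Λ A`, and for the negative `a` a substitution
`n = m + s`, `s² ≈ 2 A`. The divisors `j` of `n² + a` with `N^(3/2-γ+ε') < j < N^(1-ε')`, `γ = 2/3` or `5/8`, and the smaller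
ones are accessible on average over `a` (`N792`, `N791` of the library); the numbers with a divisor near `N` are few for
`A ≥ N^(3/5)` (new, with the double large sieve: `LB/P/BLK`, `LB/P/TRB`, `LB/P/X3D`); lower and upper bound sieves, in which
products of two primes and, for `5/8`, of three and five primes are removed by bilinear corrections, have main terms which
are bounded by Riemann sums evaluated by the kernel. The part on `A ≥ N^(1/2+ε)` (files `PH/*`): the numbers `n² + c`, `c ≤ A`,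
are detected by a triangle function of `√m`; Vaughan's identity and the double large sieve give a lower bound of the right order
for the primes among them (for `n² + c` this is the theorem of Balog and Harman on the primes with `{√p} < p^(-1/4+ε)`); the second
moment over `c` is bounded by the upper bound sieve.
-/

set_option autoImplicit false

namespace Pool.Agent.Results.MP_391708_nt.TwoSidedThinFamily

open Finset Filter Topology

/-- the number of `1 ≤ n ≤ N` for which `|n² + a|` is a prime -/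
def P (a : ℤ) (N : ℕ) : ℕ := #((Icc 1 N).filter (fun n : ℕ => Nat.Prime ((n : ℤ) ^ 2 + a).natAbs))

/-- the product of `1 - (-a | w) / (w - 1)` over the odd primes `w ≤ X` -/
noncomputable def hprod (a : ℤ) (X : ℕ) : ℝ :=
  ∏ w ∈ (range (X + 1)).filter (fun w => Nat.Prime w ∧ w ≠ 2), (1 - (jacobiSym (-a) w : ℝ) / ((w : ℝ) - 1))

lemma P_sub (a : ℤ) {u v : ℕ} (huv : u ≤ v) : (P a v : ℝ) - P a u =
    (#((Ioc u v).filter (fun n : ℕ => Nat.Prime ((n : ℤ) ^ 2 + a).natAbs)) : ℝ) := by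
  have h : P a v = P a u + #((Ioc u v).filter (fun n : ℕ => Nat.Prime ((n : ℤ) ^ 2 + a).natAbs)) := by
    unfold P
    rw [← card_union_of_disjoint]
    · congr 1
      ext n
      simp only [mem_filter, mem_Icc, mem_Ioc, mem_union]
      constructor
      · rintro ⟨⟨h1, h2⟩, h3⟩
        rcases le_or_gt n u with h | h
        · exact Or.inl ⟨⟨h1, h⟩, h3⟩
        · exact Or.inr ⟨⟨h, h2⟩, h3⟩
      · rintro (⟨⟨h1, h2⟩, h3⟩ | ⟨⟨h1, h2⟩, h3⟩)
        · exact ⟨⟨h1, by omega⟩, h3⟩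
        · exact ⟨⟨by omega, h2⟩, h3⟩
    · rw [disjoint_left]
      intro n hn hn'
      rw [mem_filter, mem_Icc] at hn
      rw [mem_filter, mem_Ioc] at hn'
      omega
  rw [h]
  push_cast
  ring

/-- the first part -/
theorem almost_all (ε η : ℝ) (hε : 0 < ε) (hη : 0 < η) :
    ∃ N0 : ℕ, ∀ N : ℕ, N0 ≤ N → ∀ A : ℕ, (N : ℝ) ^ (5 / 8 + ε) ≤ A → A ≤ N →
    ∃ Ex ⊆ Icc (-(A : ℤ)) A, (#Ex : ℝ) ≤ η * A ∧ ∀ a ∈ Icc (-(A : ℤ)) A, a ∉ Ex → (∀ m : ℤ, a ≠ -m ^ 2) →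
      ∃ h : ℝ, 0 < h ∧ Tendsto (fun X : ℕ => hprod a X) atTop (𝓝 h) ∧
        ∀ u v : ℕ, 2 ≤ u → u ≤ v → v ≤ N →
          1 / 10 * (1 / 2 * h * ∫ t in (u : ℝ)..(v : ℝ), 1 / Real.log t) -
              η * (1 / 2 * h * ∫ t in (2 : ℝ)..(N : ℝ), 1 / Real.log t) ≤ (P a v : ℝ) - P a u ∧
          ((N : ℝ) ^ (2 / 3 + ε) ≤ A →
            1 / 2 * (1 / 2 * h * ∫ t in (u : ℝ)..(v : ℝ), 1 / Real.log t) -
                η * (1 / 2 * h * ∫ t in (2 : ℝ)..(N : ℝ), 1 / Real.log t) ≤ (P a v : ℝ) - P a u ∧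
            (P a v : ℝ) - P a u ≤ 5 / 3 * (1 / 2 * h * ∫ t in (u : ℝ)..(v : ℝ), 1 / Real.log t) +
                η * (1 / 2 * h * ∫ t in (2 : ℝ)..(N : ℝ), 1 / Real.log t)) := by
  obtain ⟨N1, h1⟩ := Pool.Agent.H568.LB.lo_two ε η hε hη
  obtain ⟨N2, h2⟩ := Pool.Agent.H568.both_two ε η hε hη
  refine ⟨N1 + N2 + 2, fun N hN A hA1 hA2 => ?_⟩
  have hsqr : ∀ a : ℤ, (∀ m : ℤ, a ≠ -m ^ 2) → ¬ IsSquare (-a) := by
    rintro a hsq ⟨m, hm⟩
    exact hsq m (by rw [sq]; omega)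
  by_cases hc : (N : ℝ) ^ (2 / 3 + ε) ≤ A
  · obtain ⟨Ex, hE1, hE2, hE3⟩ := h2 N (by omega) A hc hA2
    refine ⟨Ex, hE1, hE2, fun a ha haE hsq => ?_⟩
    obtain ⟨S, hS, hSt, hb⟩ := hE3 a ha haE (hsqr a hsq)
    refine ⟨S, hS, hSt, fun u v hu huv hvN => ?_⟩
    rw [P_sub a huv]
    obtain ⟨q1, q2⟩ := hb u v hu huv hvN
    refine ⟨?_, fun _ => ⟨q1, q2⟩⟩
    have hI : 0 ≤ ∫ t in (u : ℝ)..(v : ℝ), 1 / Real.log t := by
      have hur : (2 : ℝ) ≤ u := by exact_mod_cast hu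
      have huvr : (u : ℝ) ≤ v := by exact_mod_cast huv
      apply intervalIntegral.integral_nonneg huvr
      intro t ht
      exact div_nonneg zero_le_one (Real.log_nonneg (by linarith [ht.1]))
    have hSI : 0 ≤ S * ∫ t in (u : ℝ)..(v : ℝ), 1 / Real.log t := mul_nonneg hS.le hI
    have e : 1 / 2 * S * ∫ t in (u : ℝ)..(v : ℝ), 1 / Real.log t = 1 / 2 * (S * ∫ t in (u : ℝ)..(v : ℝ), 1 / Real.log t) := by
      ring
    rw [e] at q1 ⊢
    linarith
  · obtain ⟨Ex, hE1, hE2, hE3⟩ := h1 N (by omega) A hA1 hA2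
    refine ⟨Ex, hE1, hE2, fun a ha haE hsq => ?_⟩
    obtain ⟨S, hS, hSt, hb⟩ := hE3 a ha haE (hsqr a hsq)
    refine ⟨S, hS, hSt, fun u v hu huv hvN => ?_⟩
    rw [P_sub a huv]
    exact ⟨hb u v hu huv hvN, fun h => absurd h hc⟩

/-- the second part, for one sign -/
theorem proportion (σ : ℤ) (hσ : σ = 1 ∨ σ = -1) (ε : ℝ) (hε : 0 < ε) :
    ∃ κ : ℝ, 0 < κ ∧ ∃ N1 : ℕ, ∀ N : ℕ, N1 ≤ N → ∀ A : ℕ, (N : ℝ) ^ (1 / 2 + ε) ≤ A → A ≤ N →
      κ * A ≤ (#((Icc 1 A).filter (fun a : ℕ => κ * (N / Real.log N) ≤ (P (σ * (a : ℤ)) N : ℝ))) : ℝ) := by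
  obtain ⟨κ, hκ, x0, h⟩ := Pool.Agent.H568.PH.ph_fin 1 0 σ le_rfl hσ ε hε
  refine ⟨κ, hκ, x0, fun N hN A hA1 hA2 => (h N hN A hA1 hA2).trans (Nat.cast_le.2 (card_le_card fun c hc => ?_))⟩
  rw [mem_filter] at hc ⊢
  refine ⟨hc.1, hc.2.trans ?_⟩
  unfold P
  refine Nat.cast_le.2 (card_le_card fun n hn => ?_)
  rw [mem_filter] at hn ⊢
  refine ⟨hn.1, ?_⟩
  have e : ((1 : ℕ) : ℤ) * (n : ℤ) ^ 2 + 0 * n + σ * c = (n : ℤ) ^ 2 + σ * c := by push_cast; ring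
  have h2 := hn.2
  rw [e] at h2
  have h0 : 0 ≤ (n : ℤ) ^ 2 + σ * c := by
    by_contra hcon
    rw [Int.toNat_of_nonpos (by omega)] at h2
    exact Nat.not_prime_zero h2
  have e3 : ((n : ℤ) ^ 2 + σ * c).natAbs = ((n : ℤ) ^ 2 + σ * c).toNat := by omega
  rw [e3]
  exact h2

lemma weaken {κ κ' : ℝ} (hκ : κ ≤ κ') {A N : ℕ} (hN : 3 ≤ N) {f : ℕ → ℤ}
    (h : κ' * A ≤ (#((Icc 1 A).filter (fun a : ℕ => κ' * (N / Real.log N) ≤ (P (f a) N : ℝ))) : ℝ)) :
    κ * A ≤ (#((Icc 1 A).filter (fun a : ℕ => κ * (N / Real.log N) ≤ (P (f a) N : ℝ))) : ℝ) := by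
  have hT : 0 ≤ (N : ℝ) / Real.log N := div_nonneg (by positivity) (Real.log_natCast_nonneg _)
  refine (mul_le_mul_of_nonneg_right hκ (by positivity)).trans (h.trans (Nat.cast_le.2 (card_le_card fun a ha => ?_)))
  rw [mem_filter] at ha ⊢
  exact ⟨ha.1, (mul_le_mul_of_nonneg_right hκ hT).trans ha.2⟩

/-- **Bounds for `P_a` for almost all `|a| ≤ A`, `N^(5/8+ε) ≤ A ≤ N`, and for a positive proportion, `A ≥ N^(1/2+ε)`.**
(1) For all `ε, η > 0`, all large `N` and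
every `A` with `N^(5/8 + ε) ≤ A ≤ N`, all but at most `η A` of the integers `a` with `|a| ≤ A` have the following
property: if `a` is not of the form `-m²`, the product `h_a` converges to a number `h > 0`, and for all
`2 ≤ u ≤ v ≤ N` the number `P_a(v) - P_a(u)` of the `u < n ≤ v` with `|n² + a|` prime is at least
`(1/10) (1/2) h ∫_u^v dt / log t - E`, where `E = η (1/2) h ∫_2^N dt / log t`, and if `A ≥ N^(2/3+ε)` it is between
`(1/2) (1/2) h ∫_u^v dt / log t - E` and `(5/3) (1/2) h ∫_u^v dt / log t + E`.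

(2) For every `ε > 0` there is a `κ > 0` such that for all large `N` and every `A` with `N^(1/2+ε) ≤ A ≤ N` at least `κ A` of
the integers `1 ≤ a ≤ A` satisfy `P_a(N) ≥ κ N / log N`, and at least `κ A` of them satisfy `P_{-a}(N) ≥ κ N / log N`. -/
theorem result (ε η : ℝ) (hε : 0 < ε) (hη : 0 < η) :
    (∃ N0 : ℕ, ∀ N : ℕ, N0 ≤ N → ∀ A : ℕ, (N : ℝ) ^ (5 / 8 + ε) ≤ A → A ≤ N →
    ∃ Ex ⊆ Icc (-(A : ℤ)) A, (#Ex : ℝ) ≤ η * A ∧ ∀ a ∈ Icc (-(A : ℤ)) A, a ∉ Ex → (∀ m : ℤ, a ≠ -m ^ 2) →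
      ∃ h : ℝ, 0 < h ∧ Tendsto (fun X : ℕ => hprod a X) atTop (𝓝 h) ∧
        ∀ u v : ℕ, 2 ≤ u → u ≤ v → v ≤ N →
          1 / 10 * (1 / 2 * h * ∫ t in (u : ℝ)..(v : ℝ), 1 / Real.log t) -
              η * (1 / 2 * h * ∫ t in (2 : ℝ)..(N : ℝ), 1 / Real.log t) ≤ (P a v : ℝ) - P a u ∧
          ((N : ℝ) ^ (2 / 3 + ε) ≤ A →
            1 / 2 * (1 / 2 * h * ∫ t in (u : ℝ)..(v : ℝ), 1 / Real.log t) -
                η * (1 / 2 * h * ∫ t in (2 : ℝ)..(N : ℝ), 1 / Real.log t) ≤ (P a v : ℝ) - P a u ∧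
            (P a v : ℝ) - P a u ≤ 5 / 3 * (1 / 2 * h * ∫ t in (u : ℝ)..(v : ℝ), 1 / Real.log t) +
                η * (1 / 2 * h * ∫ t in (2 : ℝ)..(N : ℝ), 1 / Real.log t))) ∧
    ∃ κ : ℝ, 0 < κ ∧ ∃ N1 : ℕ, ∀ N : ℕ, N1 ≤ N → ∀ A : ℕ, (N : ℝ) ^ (1 / 2 + ε) ≤ A → A ≤ N →
      κ * A ≤ (#((Icc 1 A).filter (fun a : ℕ => κ * (N / Real.log N) ≤ (P (a : ℤ) N : ℝ))) : ℝ) ∧
      κ * A ≤ (#((Icc 1 A).filter (fun a : ℕ => κ * (N / Real.log N) ≤ (P (-(a : ℤ)) N : ℝ))) : ℝ) := by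
  refine ⟨almost_all ε η hε hη, ?_⟩
  obtain ⟨κ1, hκ1, x1, h1⟩ := proportion 1 (Or.inl rfl) ε hε
  obtain ⟨κ2, hκ2, x2, h2⟩ := proportion (-1) (Or.inr rfl) ε hε
  refine ⟨min κ1 κ2, by positivity, x1 + x2 + 3, fun N hN A hA1 hA2 => ⟨?_, ?_⟩⟩
  · have h := h1 N (by omega) A hA1 hA2
    refine weaken (min_le_left _ _) (by omega) (h.trans (le_of_eq ?_))
    simp only [one_mul]
  · have h := h2 N (by omega) A hA1 hA2
    refine weaken (min_le_right _ _) (by omega) (h.trans (le_of_eq ?_))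
    simp only [neg_mul, one_mul]

end Pool.Agent.Results.MP_391708_nt.TwoSidedThinFamily
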